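import Mathlib
import Pool.Agent.H87.CombDef
import Pool.Agent.H87.Comb1

namespace Pool.Agent.Results.MP_441f99_an.Yes

open Pool.Agent.H87.Comb

/-- For a hereditary cover of `ℕ` by finite sets, property `(¬c₀)` implies property `(Σ)`. -/
theorem result (𝓕 : Set (Finset ℕ)) (hher : ∀ F ∈ 𝓕, ∀ G ⊆ F, G ∈ 𝓕)
    (hcov : ∀ n : ℕ, {n} ∈ 𝓕) (h : NotC0 𝓕) : PropSigma 𝓕 :=
  main hher (hher _ (hcov 0) _ (Finset.empty_subset _)) h

end Pool.Agent.Results.MP_441f99_an.Yes
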